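import Mathlib

/-!
# MP_727445_co : subset sums avoiding 3-term progressions
-/

namespace Pool.Agent.Results.MP_727445_co.BelowPowers

/-- The set of values of nonempty subset sums of `b`. -/
def subsetSums {k : ℕ} (b : Fin k → ℕ) : Set ℤ :=
  {s | ∃ I : Finset (Fin k), I.Nonempty ∧ s = ∑ i ∈ I, (b i : ℤ)}

/-- `S` contains an `r`-term arithmetic progression (nonzero difference). -/
def HasAP (r : ℕ) (S : Set ℤ) : Prop :=
  ∃ x d : ℤ, d ≠ 0 ∧ ∀ j : ℕ, j < r → x + (j : ℤ) * d ∈ S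

/-- The sequences `b_1 < ... < b_k` of positive integers with no `r`-term progression among
their nonempty subset sums. -/
def Admissible (r : ℕ) {k : ℕ} (b : Fin k → ℕ) : Prop :=
  StrictMono b ∧ (∀ i, 0 < b i) ∧ ¬ HasAP r (subsetSums b)

/-- The possible values of the last (largest) term `b_k`. -/
def lastTerms (r k : ℕ) : Set ℕ :=
  {m | ∃ b : Fin k → ℕ, Admissible r b ∧ ∃ i : Fin k, (i : ℕ) + 1 = k ∧ b i = m}

/-- `g_r(k)`: the minimum of `b_k`. -/
noncomputable def g (r k : ℕ) : ℕ := sInf (lastTerms r k)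

/-! ### dissociation -/

def Dis {k : ℕ} (b : Fin k → ℕ) : Prop :=
  ∀ c : Fin k → ℤ, (∀ i, |c i| ≤ 2) → ∑ i, c i * (b i : ℤ) = 0 → ∀ i, c i = 0

lemma sum_ind {k : ℕ} (b : Fin k → ℕ) (I : Finset (Fin k)) :
    ∑ i ∈ I, (b i : ℤ) = ∑ i, (if i ∈ I then (1 : ℤ) else 0) * (b i : ℤ) := by
  simp [ite_mul, Finset.sum_ite_mem]

lemma noAP_of_dis {k : ℕ} {b : Fin k → ℕ} (h : Dis b) : ¬ HasAP 3 (subsetSums b) := by
  rintro ⟨x, d, hd, hj⟩
  obtain ⟨I, -, hI⟩ := hj 0 (by norm_num)
  obtain ⟨J, -, hJ⟩ := hj 1 (by norm_num)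
  obtain ⟨K, -, hK⟩ := hj 2 (by norm_num)
  rw [sum_ind] at hI hJ hK
  have h0 := h (fun i => (if i ∈ I then (1 : ℤ) else 0) + (if i ∈ K then (1 : ℤ) else 0)
      - 2 * (if i ∈ J then (1 : ℤ) else 0)) (by
        intro i
        split_ifs <;> norm_num) (by
        have : ∀ i, ((if i ∈ I then (1 : ℤ) else 0) + (if i ∈ K then (1 : ℤ) else 0)
          - 2 * (if i ∈ J then (1 : ℤ) else 0)) * (b i : ℤ)
          = (if i ∈ I then (1 : ℤ) else 0) * (b i : ℤ) + (if i ∈ K then (1 : ℤ) else 0) * (b i : ℤ)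
            - 2 * ((if i ∈ J then (1 : ℤ) else 0) * (b i : ℤ)) := fun i => by ring
        simp only [this]
        rw [Finset.sum_sub_distrib, Finset.sum_add_distrib, ← Finset.mul_sum, ← hI, ← hJ, ← hK]
        push_cast
        ring)
  apply hd
  have hIJ : ∀ i, (if i ∈ I then (1 : ℤ) else 0) = (if i ∈ J then (1 : ℤ) else 0) := by
    intro i
    have := h0 i
    split_ifs at this ⊢ <;> simp_all
  have : x + ((0 : ℕ) : ℤ) * d = x + ((1 : ℕ) : ℤ) * d := by
    rw [hI, hJ]
    exact Finset.sum_congr rfl (fun i _ => by rw [hIJ i])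
  push_cast at this
  linarith

lemma hasAP_three {S : Set ℤ} {x y z : ℤ} (hx : x ∈ S) (hy : y ∈ S) (hz : z ∈ S)
    (h : x + z = 2 * y) (hne : x ≠ y) : HasAP 3 S := by
  refine ⟨x, y - x, sub_ne_zero.mpr (Ne.symm hne), ?_⟩
  intro j hj
  interval_cases j
  · simpa using hx
  · simpa using hy
  · have : x + ((2 : ℕ) : ℤ) * (y - x) = z := by push_cast; linarith
    rw [this]; exact hz

/-- a zero sum with a coefficient `2` and a coefficient `±1` gives a progression -/
lemma ap_of_two_one {k : ℕ} {b : Fin k → ℕ} (hpos : ∀ i, 0 < b i) (c : Fin k → ℤ)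
    (hc : ∀ i, |c i| ≤ 2) (hs : ∑ i, c i * (b i : ℤ) = 0)
    (p : Fin k) (hp : c p = 2) (q : Fin k) (hq : |c q| = 1) : HasAP 3 (subsetSums b) := by
  classical
  have hc' : ∀ i, c i = -2 ∨ c i = -1 ∨ c i = 0 ∨ c i = 1 ∨ c i = 2 := by
    intro i
    have := abs_le.mp (hc i)
    omega
  set X := Finset.univ.filter (fun i => c i = 2 ∨ c i = 1 ∨ c i = -1) with hX
  set Z := Finset.univ.filter (fun i => c i = 2) with hZ
  set Y := Finset.univ.filter (fun i => c i < 0) with hY
  have hXs := sum_ind b X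
  have hYs := sum_ind b Y
  have hZs := sum_ind b Z
  have hkey : (∑ i ∈ X, (b i : ℤ)) + (∑ i ∈ Z, (b i : ℤ)) = 2 * ∑ i ∈ Y, (b i : ℤ) := by
    have : (∑ i ∈ X, (b i : ℤ)) + (∑ i ∈ Z, (b i : ℤ)) - 2 * ∑ i ∈ Y, (b i : ℤ)
        = ∑ i, c i * (b i : ℤ) := by
      rw [hXs, hYs, hZs, Finset.mul_sum, ← Finset.sum_add_distrib, ← Finset.sum_sub_distrib]
      refine Finset.sum_congr rfl (fun i _ => ?_)
      rw [← add_mul, ← mul_assoc, ← sub_mul]
      congr 1
      simp only [hX, hY, hZ, Finset.mem_filter, Finset.mem_univ, true_and]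
      rcases hc' i with h | h | h | h | h <;> rw [h] <;> norm_num
    rw [hs] at this
    linarith
  have hXZ : (∑ i ∈ Z, (b i : ℤ)) < ∑ i ∈ X, (b i : ℤ) := by
    apply Finset.sum_lt_sum_of_subset (i := q)
    · intro i hi
      simp only [hX, hZ, Finset.mem_filter, Finset.mem_univ, true_and] at hi ⊢
      exact Or.inl hi
    · simp only [hX, Finset.mem_filter, Finset.mem_univ, true_and]
      rcases hc' q with h | h | h | h | h <;> rw [h] at hq ⊢ <;> simp at hq ⊢
    · simp only [hZ, Finset.mem_filter, Finset.mem_univ, true_and]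
      intro h
      rw [h] at hq
      norm_num at hq
    · exact_mod_cast hpos q
    · intro j _ _
      positivity
  have hYne : Y.Nonempty := by
    by_contra hne
    rw [Finset.not_nonempty_iff_eq_empty] at hne
    rw [hne, Finset.sum_empty] at hkey
    have h1 : 0 ≤ ∑ i ∈ Z, (b i : ℤ) := Finset.sum_nonneg (fun i _ => by positivity)
    linarith
  refine hasAP_three (x := ∑ i ∈ X, (b i : ℤ)) (y := ∑ i ∈ Y, (b i : ℤ))
    (z := ∑ i ∈ Z, (b i : ℤ)) ⟨X, ⟨p, by simp [hX, hp]⟩, rfl⟩ ⟨Y, hYne, rfl⟩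
    ⟨Z, ⟨p, by simp [hZ, hp]⟩, rfl⟩ hkey ?_
  intro h
  linarith

/-- a zero sum with coefficients in `{-1,0,1}` and two coefficients `1` gives a progression -/
lemma ap_of_one_one {k : ℕ} {b : Fin k → ℕ} (hpos : ∀ i, 0 < b i) (c : Fin k → ℤ)
    (hc : ∀ i, |c i| ≤ 1) (hs : ∑ i, c i * (b i : ℤ) = 0)
    (p q : Fin k) (hpq : p ≠ q) (hp : c p = 1) (hq : c q = 1) :
    HasAP 3 (subsetSums b) := by
  classical
  have hc' : ∀ i, c i = -1 ∨ c i = 0 ∨ c i = 1 := by
    intro i
    have := abs_le.mp (hc i)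
    omega
  set P := Finset.univ.filter (fun i => c i = 1) with hP
  set N := Finset.univ.filter (fun i => c i = -1) with hN
  have hPs := sum_ind b P
  have hNs := sum_ind b N
  have hkey : (∑ i ∈ P, (b i : ℤ)) = ∑ i ∈ N, (b i : ℤ) := by
    have : (∑ i ∈ P, (b i : ℤ)) - ∑ i ∈ N, (b i : ℤ)
        = ∑ i, c i * (b i : ℤ) := by
      rw [hPs, hNs, ← Finset.sum_sub_distrib]
      refine Finset.sum_congr rfl (fun i _ => ?_)
      rw [← sub_mul]
      congr 1
      simp only [hP, hN, Finset.mem_filter, Finset.mem_univ, true_and]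
      rcases hc' i with h | h | h <;> rw [h] <;> norm_num
    rw [hs] at this
    linarith
  have hpP : p ∈ P := by simp [hP, hp]
  have hqP : q ∈ P := by simp [hP, hq]
  have hpN : p ∉ N := by simp [hN, hp]
  have hbp : (0 : ℤ) < b p := by exact_mod_cast hpos p
  refine hasAP_three (x := ∑ i ∈ P.erase p, (b i : ℤ)) (y := ∑ i ∈ P, (b i : ℤ))
    (z := ∑ i ∈ insert p N, (b i : ℤ)) ⟨P.erase p, ⟨q, by simp [hqP, hpq.symm]⟩, rfl⟩
    ⟨P, ⟨p, hpP⟩, rfl⟩ ⟨insert p N, ⟨p, Finset.mem_insert_self _ _⟩, rfl⟩ ?_ ?_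
  · rw [Finset.sum_insert hpN, ← Finset.sum_erase_add P _ hpP] 
    rw [← Finset.sum_erase_add P _ hpP] at hkey
    linarith
  · rw [← Finset.sum_erase_add P _ hpP]
    intro h
    linarith

lemma zero_of_one {k : ℕ} {b : Fin k → ℕ} (hmono : StrictMono b) (hpos : ∀ i, 0 < b i)
    (hap : ¬ HasAP 3 (subsetSums b)) (c : Fin k → ℤ) (hc : ∀ i, |c i| ≤ 1)
    (hs : ∑ i, c i * (b i : ℤ) = 0) : ∀ i, c i = 0 := by
  classical
  have hc' : ∀ i, c i = -1 ∨ c i = 0 ∨ c i = 1 := by
    intro i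
    have := abs_le.mp (hc i)
    omega
  have hb : ∀ i, (0 : ℤ) < b i := fun i => by exact_mod_cast hpos i
  by_contra hne
  push Not at hne
  -- there is a coefficient 1 and a coefficient -1
  have h1 : ∃ p, c p = 1 := by
    by_contra hno
    push Not at hno
    obtain ⟨i, hi⟩ := hne
    have : ∑ i, c i * (b i : ℤ) < 0 := by
      apply Finset.sum_neg' 
      · intro j _
        rcases hc' j with h | h | h
        · rw [h]; linarith [hb j]
        · rw [h]; simp
        · exact absurd h (hno j)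
      · refine ⟨i, Finset.mem_univ _, ?_⟩
        rcases hc' i with h | h | h
        · rw [h]; linarith [hb i]
        · exact absurd h hi
        · exact absurd h (hno i)
    linarith
  have h2 : ∃ p, c p = -1 := by
    by_contra hno
    push Not at hno
    obtain ⟨i, hi⟩ := hne
    have : 0 < ∑ i, c i * (b i : ℤ) := by
      apply Finset.sum_pos' 
      · intro j _
        rcases hc' j with h | h | h
        · exact absurd h (hno j)
        · rw [h]; simp
        · rw [h]; linarith [hb j]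
      · refine ⟨i, Finset.mem_univ _, ?_⟩
        rcases hc' i with h | h | h
        · exact absurd h (hno i)
        · exact absurd h hi
        · rw [h]; linarith [hb i]
    linarith
  obtain ⟨p, hp⟩ := h1
  obtain ⟨q, hq⟩ := h2
  by_cases h3 : ∃ p', p' ≠ p ∧ c p' = 1
  · obtain ⟨p', hpp, hp'⟩ := h3
    exact hap (ap_of_one_one hpos c hc hs p' p hpp hp' hp)
  by_cases h4 : ∃ q', q' ≠ q ∧ c q' = -1
  · obtain ⟨q', hqq, hq'⟩ := h4
    refine hap (ap_of_one_one hpos (fun i => - c i) (by simpa using hc) ?_ q' q hqq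
      (by simp [hq']) (by simp [hq]))
    simp [hs]
  push Not at h3 h4
  have hpq : p ≠ q := by
    rintro rfl
    rw [hp] at hq
    norm_num at hq
  have hrest : ∀ i, i ≠ p → i ≠ q → c i = 0 := by
    intro i hip hiq
    rcases hc' i with h | h | h
    · exact absurd h (h4 i hiq)
    · exact h
    · exact absurd h (h3 i hip)
  have hsum : ∑ i, c i * (b i : ℤ) = c p * b p + c q * b q := by
    apply Finset.sum_eq_add_of_mem p q (Finset.mem_univ _) (Finset.mem_univ _) hpq
    intro i _ hi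
    rw [hrest i hi.1 hi.2, zero_mul]
  rw [hs, hp, hq] at hsum
  have : b p = b q := by
    have : (b p : ℤ) = b q := by linarith
    exact_mod_cast this
  exact hpq (hmono.injective this)

lemma dis_of_noAP {k : ℕ} {b : Fin k → ℕ} (hmono : StrictMono b) (hpos : ∀ i, 0 < b i)
    (hap : ¬ HasAP 3 (subsetSums b)) : Dis b := by
  classical
  intro c hc hs
  have hc' : ∀ i, c i = -2 ∨ c i = -1 ∨ c i = 0 ∨ c i = 1 ∨ c i = 2 := by
    intro i
    have := abs_le.mp (hc i)
    omega
  by_cases hone : ∃ q, |c q| = 1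
  · obtain ⟨q, hq⟩ := hone
    have hno2 : ∀ p, c p ≠ 2 := fun p hp => hap (ap_of_two_one hpos c hc hs p hp q hq)
    have hno2' : ∀ p, c p ≠ -2 := fun p hp =>
      hap (ap_of_two_one hpos (fun i => - c i) (by simpa using hc) (by simp [hs]) p
        (by simp [hp]) q (by simpa using hq))
    refine zero_of_one hmono hpos hap c ?_ hs
    intro i
    rcases hc' i with h | h | h | h | h
    · exact absurd h (hno2' i)
    · rw [h]; norm_num
    · rw [h]; norm_num
    · rw [h]; norm_num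
    · exact absurd h (hno2 i)
  · push Not at hone
    have heven : ∀ i, 2 * (c i / 2) = c i := by
      intro i
      have := hone i
      rcases hc' i with h | h | h | h | h <;> rw [h] at this ⊢ <;> simp at this ⊢
    have := zero_of_one hmono hpos hap (fun i => c i / 2) (by
      intro i
      rcases hc' i with h | h | h | h | h <;> rw [h] <;> norm_num) (by
      have h2 : (2 : ℤ) * ∑ i, c i / 2 * (b i : ℤ) = 0 := by
        rw [Finset.mul_sum, ← hs]
        refine Finset.sum_congr rfl (fun i _ => ?_)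
        rw [← mul_assoc, heven i]
      linarith)
    intro i
    have h1 := this i
    have h2 := heven i
    rw [h1] at h2
    linarith


/-! ### extension by a factor 3 -/

lemma dis_cons {k : ℕ} {b : Fin k → ℕ} (h : Dis b) :
    Dis (Fin.cons 1 (fun i => 3 * b i) : Fin (k + 1) → ℕ) := by
  intro c hc hs
  rw [Fin.sum_univ_succ] at hs
  simp only [Fin.cons_zero, Fin.cons_succ] at hs
  have h3 : c 0 + 3 * ∑ i : Fin k, c i.succ * (b i : ℤ) = 0 := by
    rw [Finset.mul_sum, ← hs]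
    congr 1
    · simp
    · refine Finset.sum_congr rfl (fun i _ => ?_)
      push_cast
      ring
  have h0 : c 0 = 0 := by
    have := abs_le.mp (hc 0)
    omega
  have h1 := h (fun i => c i.succ) (fun i => hc _) (by linarith)
  intro i
  refine Fin.cases h0 h1 i

lemma lastTerms_succ {k m : ℕ} (h : m ∈ lastTerms 3 k) : 3 * m ∈ lastTerms 3 (k + 1) := by
  obtain ⟨b, ⟨hmono, hpos, hap⟩, i, hi, hm⟩ := h
  have hd := dis_cons (dis_of_noAP hmono hpos hap)
  refine ⟨(Fin.cons 1 (fun i => 3 * b i) : Fin (k + 1) → ℕ), ⟨?_, ?_, noAP_of_dis hd⟩,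
    i.succ, by simp [hi], by simp [hm]⟩
  · intro x y hxy
    induction x using Fin.cases with
    | zero =>
      induction y using Fin.cases with
      | zero => exact absurd hxy (lt_irrefl _)
      | succ y =>
        simp only [Fin.cons_zero, Fin.cons_succ]
        have := hpos y
        omega
    | succ x =>
      induction y using Fin.cases with
      | zero => exact absurd hxy (by simp)
      | succ y =>
        simp only [Fin.cons_succ]
        have := hmono (Fin.succ_lt_succ_iff.mp hxy)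
        omega
  · intro x
    induction x using Fin.cases with
    | zero => simp
    | succ x =>
      simp only [Fin.cons_succ]
      have := hpos x
      omega

/-! ### masks -/

def upd (M v : ℕ) : ℕ :=
  M ||| M <<< v ||| M <<< (2 * v) ||| M <<< (3 * v) ||| M <<< (4 * v)

lemma testBit_upd (M v n : ℕ) : (upd M v).testBit n = true ↔
    ∃ j : ℕ, j < 5 ∧ j * v ≤ n ∧ M.testBit (n - j * v) = true := by
  unfold upd
  simp only [Nat.testBit_or, Nat.testBit_shiftLeft, Bool.or_eq_true, Bool.and_eq_true,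
    decide_eq_true_eq]
  constructor
  · rintro ((((h | h) | h) | h) | h)
    · exact ⟨0, by norm_num, by omega, by simpa using h⟩
    · exact ⟨1, by norm_num, by omega, by simpa using h.2⟩
    · exact ⟨2, by norm_num, h.1, h.2⟩
    · exact ⟨3, by norm_num, h.1, h.2⟩
    · exact ⟨4, by norm_num, h.1, h.2⟩
  · rintro ⟨j, hj, h1, h2⟩
    interval_cases j
    · left; left; left; left; simpa using h2
    · left; left; left; right; exact ⟨by omega, by simpa using h2⟩
    · left; left; right; exact ⟨h1, h2⟩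
    · left; right; exact ⟨h1, h2⟩
    · right; exact ⟨h1, h2⟩

def Covers (l : List ℕ) (M T : ℕ) : Prop :=
  ∀ c : Fin l.length → ℤ, (∀ i, |c i| ≤ 2) →
    ∃ n : ℕ, (n : ℤ) = T + ∑ i, c i * (l.get i : ℤ) ∧ M.testBit n = true

def Sound (l : List ℕ) (M T : ℕ) : Prop :=
  ∀ n : ℕ, M.testBit n = true → ∃ c : Fin l.length → ℤ, (∀ i, |c i| ≤ 2) ∧
    (n : ℤ) = T + ∑ i, c i * (l.get i : ℤ)

lemma covers_nil : Covers [] 1 0 := by
  intro c _
  exact ⟨0, by simp, by simp⟩

lemma sound_nil : Sound [] 1 0 := by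
  intro n hn
  have : n = 0 := by
    by_contra h
    rw [Nat.testBit_one_eq_true_iff_self_eq_zero] at hn
    exact h hn
  subst this
  exact ⟨fun _ => 0, by simp, by simp⟩

lemma sum_get_cons (v : ℕ) (l : List ℕ) (c : Fin (v :: l).length → ℤ) :
    ∑ i, c i * ((v :: l).get i : ℤ)
      = c ⟨0, by simp⟩ * (v : ℤ) + ∑ i : Fin l.length, c i.succ * (l.get i : ℤ) := by
  have := Fin.sum_univ_succ (n := l.length) (fun i : Fin (l.length + 1) => c i * ((v :: l).get i : ℤ))
  exact this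

lemma covers_cons {l : List ℕ} {M T v : ℕ} (h : Covers l M T) :
    Covers (v :: l) (upd M v) (T + 2 * v) := by
  intro c hc
  obtain ⟨n, hn, hb⟩ := h (fun i => c i.succ) (fun i => hc _)
  have hc0 := abs_le.mp (hc ⟨0, by simp⟩)
  obtain ⟨j, hj⟩ : ∃ j : ℕ, (j : ℤ) = c ⟨0, by simp⟩ + 2 := ⟨(c ⟨0, by simp⟩ + 2).toNat, by
    rw [Int.toNat_of_nonneg]; linarith [hc0.1]⟩
  refine ⟨n + j * v, ?_, ?_⟩
  · rw [sum_get_cons]
    push_cast
    rw [hn, hj]
    ring
  · rw [testBit_upd]
    refine ⟨j, by omega, by omega, by simpa using hb⟩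

lemma sound_cons {l : List ℕ} {M T v : ℕ} (h : Sound l M T) :
    Sound (v :: l) (upd M v) (T + 2 * v) := by
  intro n hn
  rw [testBit_upd] at hn
  obtain ⟨j, hj, hjn, hb⟩ := hn
  obtain ⟨c, hc, hs⟩ := h _ hb
  refine ⟨(Fin.cons ((j : ℤ) - 2) c : Fin (l.length + 1) → ℤ), ?_, ?_⟩
  · intro i
    refine Fin.cases ?_ ?_ i
    · simp only [Fin.cons_zero]
      rw [abs_le]
      constructor <;> omega
    · intro i
      simp only [Fin.cons_succ]
      exact hc i
  · rw [sum_get_cons]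
    have h1 : ((Fin.cons ((j : ℤ) - 2) c : Fin (l.length + 1) → ℤ) ⟨0, by simp⟩) = (j : ℤ) - 2 := rfl
    have h2 : ∀ i : Fin l.length,
      ((Fin.cons ((j : ℤ) - 2) c : Fin (l.length + 1) → ℤ) i.succ) = c i := fun i => rfl
    rw [h1]
    simp only [h2]
    rw [Nat.cast_sub hjn] at hs
    push_cast at hs ⊢
    linarith

lemma dis_get_cons {l : List ℕ} {M T v : ℕ} (hcov : Covers l M T) (hd : Dis l.get)
    (h1 : M.testBit (T + v) = false) (h2 : M.testBit (T + 2 * v) = false) :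
    Dis (v :: l).get := by
  intro c hc hs
  rw [sum_get_cons] at hs
  have hc0 := abs_le.mp (hc ⟨0, by simp⟩)
  have key : ∀ c' : Fin l.length → ℤ, (∀ i, |c' i| ≤ 2) →
      ∑ i, c' i * (l.get i : ℤ) ≠ v ∧ ∑ i, c' i * (l.get i : ℤ) ≠ 2 * v := by
    intro c' hc'
    obtain ⟨n, hn, hb⟩ := hcov c' hc'
    constructor
    · intro h
      rw [h] at hn
      have : n = T + v := by exact_mod_cast hn
      rw [this, h1] at hb
      exact absurd hb (by simp)
    · intro h
      rw [h] at hn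
      have : n = T + 2 * v := by exact_mod_cast hn
      rw [this, h2] at hb
      exact absurd hb (by simp)
  have kp := key (fun i => c i.succ) (fun i => hc _)
  have kn := key (fun i => - c i.succ) (fun i => by simpa using hc i.succ)
  have hneg : ∑ i : Fin l.length, - c i.succ * (l.get i : ℤ)
      = - ∑ i : Fin l.length, c i.succ * (l.get i : ℤ) := by
    rw [← Finset.sum_neg_distrib]
    exact Finset.sum_congr rfl (fun i _ => by ring)
  rw [hneg] at kn
  have hz : c ⟨0, by simp⟩ = 0 := by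
    set a := c ⟨0, by simp⟩
    have ha : a = -2 ∨ a = -1 ∨ a = 0 ∨ a = 1 ∨ a = 2 := by omega
    rcases ha with h | h | h | h | h
    · rw [h] at hs; exact absurd (by linarith) kp.2
    · rw [h] at hs; exact absurd (by linarith) kp.1
    · exact h
    · rw [h] at hs; exact absurd (by linarith) kn.1
    · rw [h] at hs; exact absurd (by linarith) kn.2
  have hrest := hd (fun i => c i.succ) (fun i => hc _) (by
    rw [hz] at hs; linarith)
  intro i
  exact Fin.cases (motive := fun i => c i = 0) hz hrest i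

/-- checks dissociation of a list -/
def chk : List ℕ → ℕ → ℕ → Bool
  | [], _, _ => true
  | v :: l, M, T =>
    !(M.testBit (T + v)) && (!(M.testBit (T + 2 * v)) && chk l (upd M v) (T + 2 * v))

lemma chk_sound : ∀ (l l' : List ℕ) (M T : ℕ), Covers l' M T → Dis l'.get →
    chk l M T = true → Dis (l.reverse ++ l').get := by
  intro l
  induction l with
  | nil => intro l' M T _ hd _; simpa using hd
  | cons v l ih =>
    intro l' M T hcov hd hchk
    unfold chk at hchk
    simp only [Bool.and_eq_true, Bool.not_eq_true'] at hchk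
    have := ih (v :: l') (upd M v) (T + 2 * v) (covers_cons hcov)
      (dis_get_cons hcov hd hchk.1 hchk.2.1) hchk.2.2
    have e : (v :: l).reverse ++ l' = l.reverse ++ (v :: l') := by simp
    rw [e]
    exact this

lemma dis_nil : Dis ([] : List ℕ).get := by
  intro c _ _ i
  exact i.elim0

/-- A decreasing list of positive integers which passes the check gives an admissible
sequence. -/
lemma mem_lastTerms_of_chk (a : ℕ) (l : List ℕ) (hchk : chk (a :: l) 1 0 = true)
    (hdec : (a :: l).Pairwise (· > ·)) (hpos : ∀ x ∈ a :: l, 0 < x) :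
    a ∈ lastTerms 3 (l.length + 1) := by
  have h := chk_sound (a :: l) [] 1 0 covers_nil dis_nil hchk
  rw [List.append_nil] at h
  have hlen : (a :: l).reverse.length = l.length + 1 := by simp
  have hpw : (a :: l).reverse.Pairwise (· < ·) := by
    rw [List.pairwise_reverse]
    exact hdec
  have hmono : StrictMono (a :: l).reverse.get := by
    intro i j hij
    exact List.pairwise_iff_get.mp hpw i j hij
  rw [← hlen]
  refine ⟨(a :: l).reverse.get, ⟨hmono, ?_, noAP_of_dis h⟩, ⟨l.length, by simp⟩, by simp, ?_⟩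
  · intro i
    apply hpos
    rw [← List.mem_reverse]
    exact List.get_mem _ _
  · simp


/-! ### exhaustive search for the lower bounds -/

def allBelow (p : ℕ → Bool) : ℕ → Bool
  | 0 => true
  | n + 1 => p n && allBelow p n

lemma allBelow_spec {p : ℕ → Bool} : ∀ {n : ℕ}, allBelow p n = true → ∀ v, v < n → p v = true := by
  intro n
  induction n with
  | zero => intro _ v hv; exact absurd hv (by omega)
  | succ n ih =>
    intro h v hv
    unfold allBelow at h
    rw [Bool.and_eq_true] at h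
    rcases Nat.lt_succ_iff_lt_or_eq.mp hv with h1 | h1
    · exact ih h.2 v h1
    · rw [h1]; exact h.1

def noext : ℕ → ℕ → ℕ → ℕ → Bool
  | 0, _, _, _ => false
  | k + 1, ub, M, T =>
    allBelow (fun v => M.testBit (T + v) || (M.testBit (T + 2 * v) ||
      noext k v (upd M v) (T + 2 * v))) ub

lemma dis_tail {v : ℕ} {l : List ℕ} (h : Dis (v :: l).get) : Dis l.get := by
  intro c hc hs
  have := h (Fin.cons 0 c : Fin (l.length + 1) → ℤ) (by
    intro i
    refine Fin.cases ?_ ?_ i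
    · simp
    · intro i; simpa using hc i) (by
    rw [sum_get_cons]
    have h1 : ((Fin.cons 0 c : Fin (l.length + 1) → ℤ) ⟨0, by simp⟩) = 0 := rfl
    have h2 : ∀ i : Fin l.length,
      ((Fin.cons 0 c : Fin (l.length + 1) → ℤ) i.succ) = c i := fun i => rfl
    rw [h1]
    simp only [h2]
    rw [hs]
    simp)
  intro i
  exact this i.succ

lemma dis_suffix {a l : List ℕ} (h : Dis (a ++ l).get) : Dis l.get := by
  induction a with
  | nil => simpa using h
  | cons v a ih => exact ih (dis_tail h)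

lemma not_dis_cons {l : List ℕ} {M T v : ℕ} (hs : Sound l M T)
    (h : M.testBit (T + v) = true ∨ M.testBit (T + 2 * v) = true) : ¬ Dis (v :: l).get := by
  intro hd
  obtain ⟨j, hj, hj'⟩ : ∃ j : ℕ, (j = 1 ∨ j = 2) ∧ M.testBit (T + j * v) = true := by
    rcases h with h | h
    · exact ⟨1, Or.inl rfl, by simpa using h⟩
    · exact ⟨2, Or.inr rfl, h⟩
  obtain ⟨c, hc, hcs⟩ := hs _ hj'
  have := hd (Fin.cons (-(j : ℤ)) c : Fin (l.length + 1) → ℤ) (by
    intro i
    refine Fin.cases ?_ ?_ i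
    · simp only [Fin.cons_zero]
      rcases hj with h | h <;> rw [h] <;> norm_num
    · intro i; simpa using hc i) (by
    rw [sum_get_cons]
    have h1 : ((Fin.cons (-(j : ℤ)) c : Fin (l.length + 1) → ℤ) ⟨0, by simp⟩) = -(j : ℤ) := rfl
    have h2 : ∀ i : Fin l.length,
      ((Fin.cons (-(j : ℤ)) c : Fin (l.length + 1) → ℤ) i.succ) = c i := fun i => rfl
    rw [h1]
    simp only [h2]
    push_cast at hcs
    linarith)
  have h0 := this ⟨0, by simp⟩
  have h1 : ((Fin.cons (-(j : ℤ)) c : Fin (l.length + 1) → ℤ) ⟨0, by simp⟩) = -(j : ℤ) := rfl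
  rw [h1] at h0
  rcases hj with h | h <;> rw [h] at h0 <;> norm_num at h0

lemma noext_sound : ∀ (k ub M T : ℕ) (l : List ℕ), Sound l M T → noext k ub M T = true →
    ∀ w : Fin k → ℕ, StrictMono w → (∀ i, 0 < w i) → (∀ i, w i < ub) →
      ¬ Dis (List.ofFn w ++ l).get := by
  intro k
  induction k with
  | zero =>
    intro ub M T l _ h
    unfold noext at h
    exact absurd h (by simp)
  | succ k ih =>
    intro ub M T l hs h w hw hpos hub
    unfold noext at h
    have h1 := allBelow_spec h (w (Fin.last k)) (hub _)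
    rw [Bool.or_eq_true, Bool.or_eq_true] at h1
    have e : List.ofFn w ++ l = List.ofFn (fun i : Fin k => w i.castSucc) ++ (w (Fin.last k) :: l) := by
      rw [List.ofFn_succ']
      simp
    rw [e]
    rcases h1 with h1 | h1 | h1
    · intro hd
      exact not_dis_cons hs (Or.inl h1) (dis_suffix hd)
    · intro hd
      exact not_dis_cons hs (Or.inr h1) (dis_suffix hd)
    · refine ih _ _ _ (w (Fin.last k) :: l) (sound_cons hs) h1 _ ?_ ?_ ?_
      · intro i j hij
        exact hw (by simpa using hij)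
      · intro i; exact hpos _
      · intro i; exact hw (Fin.castSucc_lt_last i)

lemma dis_ofFn {k : ℕ} {b : Fin k → ℕ} (h : Dis b) : Dis (List.ofFn b).get := by
  intro c hc hs
  have hl : (List.ofFn b).length = k := List.length_ofFn
  have hsum : ∑ i : Fin k, c (Fin.cast hl.symm i) * (b i : ℤ) = 0 := by
    rw [← hs]
    rw [← Equiv.sum_comp (finCongr hl.symm)]
    refine Finset.sum_congr rfl (fun i _ => ?_)
    simp
  have := h (fun i => c (Fin.cast hl.symm i)) (fun i => hc _) hsum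
  intro i
  have h1 := this (Fin.cast hl i)
  simpa using h1

lemma lower_of_noext {k ub : ℕ} (h : noext k ub 1 0 = true) {m : ℕ}
    (hm : m ∈ lastTerms 3 k) : ub ≤ m := by
  obtain ⟨b, ⟨hmono, hpos, hap⟩, i, hi, hbm⟩ := hm
  by_contra hlt
  push Not at hlt
  refine noext_sound k ub 1 0 [] sound_nil h b hmono hpos ?_ ?_
  · intro j
    have : b j ≤ b i := hmono.monotone (by rw [Fin.le_def]; omega)
    omega
  · rw [List.append_nil]
    exact dis_ofFn (dis_of_noAP hmono hpos hap)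


/-! ### second moment lower bound -/

/-- the sum of squares over all signed sums -/
lemma second_moment : ∀ (k : ℕ) (b : Fin k → ℕ) (t : ℤ),
    3 * ∑ c : Fin k → Fin 3, (t + ∑ i, (((c i : ℕ) : ℤ) - 1) * (b i : ℤ)) ^ 2
      = 3 ^ k * (3 * t ^ 2 + 2 * ∑ i, (b i : ℤ) ^ 2) := by
  intro k
  induction k with
  | zero => intro b t; simp
  | succ k ih =>
    intro b t
    rw [← Equiv.sum_comp (Fin.consEquiv (fun _ : Fin (k + 1) => Fin 3)), Fintype.sum_prod_type]
    have h : ∀ x : Fin 3, 3 * ∑ y : Fin k → Fin 3,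
        (t + ∑ i, ((((Fin.consEquiv (fun _ : Fin (k + 1) => Fin 3)) (x, y) i : ℕ) : ℤ) - 1)
          * (b i : ℤ)) ^ 2
        = 3 ^ k * (3 * (t + (((x : ℕ) : ℤ) - 1) * (b 0 : ℤ)) ^ 2
            + 2 * ∑ i : Fin k, (b i.succ : ℤ) ^ 2) := by
      intro x
      rw [← ih (fun i => b i.succ) (t + (((x : ℕ) : ℤ) - 1) * (b 0 : ℤ))]
      congr 1
      refine Finset.sum_congr rfl (fun y _ => ?_)
      rw [Fin.sum_univ_succ]
      simp only [Fin.consEquiv_apply, Fin.cons_zero, Fin.cons_succ]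
      ring
    rw [Finset.mul_sum, Finset.sum_congr rfl (fun x _ => h x), Fin.sum_univ_three,
      Fin.sum_univ_succ (fun i : Fin (k + 1) => (b i : ℤ) ^ 2)]
    simp only [Fin.val_zero, Fin.val_one, Fin.val_two]
    push_cast
    ring

lemma sum_sq_shift (n : ℤ) : ∀ M : ℕ, 6 * ∑ j ∈ Finset.range M, ((j : ℤ) - n) ^ 2
    = M * (M - 1) * (2 * M - 1) - 6 * n * M * (M - 1) + 6 * n ^ 2 * M := by
  intro M
  induction M with
  | zero => simp
  | succ M ih =>
    rw [Finset.sum_range_succ, mul_add, ih]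
    push_cast
    ring

/-- among sets of `2n+1` integers, the sum of squares is smallest for `{-n,...,n}` -/
lemma sum_sq_ge (n : ℕ) (A : Finset ℤ) (hA : A.card = 2 * n + 1) :
    (n : ℤ) * (n + 1) * (2 * n + 1) ≤ 3 * ∑ a ∈ A, a ^ 2 := by
  classical
  set I : Finset ℤ := (Finset.range (2 * n + 1)).image (fun j : ℕ => (j : ℤ) - n) with hI
  have hinj : Set.InjOn (fun j : ℕ => (j : ℤ) - n) (Finset.range (2 * n + 1)) := by
    intro a _ b _ h
    simp only at h
    have : (a : ℤ) = b := by linarith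
    exact_mod_cast this
  have hIc : I.card = 2 * n + 1 := by
    rw [hI, Finset.card_image_of_injOn hinj, Finset.card_range]
  have hIm : ∀ a : ℤ, a ∈ I ↔ -(n : ℤ) ≤ a ∧ a ≤ n := by
    intro a
    simp only [hI, Finset.mem_image, Finset.mem_range]
    constructor
    · rintro ⟨j, hj, rfl⟩
      constructor <;> omega
    · rintro ⟨h1, h2⟩
      exact ⟨(a + n).toNat, by omega, by omega⟩
  have hIs : 3 * ∑ a ∈ I, a ^ 2 = (n : ℤ) * (n + 1) * (2 * n + 1) := by
    rw [hI, Finset.sum_image hinj]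
    have := sum_sq_shift n (2 * n + 1)
    push_cast at this
    linarith
  rw [← hIs]
  have hcard : (A \ I).card = (I \ A).card := by
    have h1 := Finset.card_sdiff_add_card_inter A I
    have h2 := Finset.card_sdiff_add_card_inter I A
    rw [Finset.inter_comm] at h2
    omega
  have h1 : ((A \ I).card : ℤ) * (n : ℤ) ^ 2 ≤ ∑ a ∈ A \ I, a ^ 2 := by
    rw [← nsmul_eq_mul]
    apply Finset.card_nsmul_le_sum
    intro a ha
    rw [Finset.mem_sdiff, hIm] at ha
    have : (n : ℤ) < |a| := by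
      by_contra hle
      push Not at hle
      exact ha.2 (abs_le.mp hle)
    rw [← sq_abs a]
    exact pow_le_pow_left₀ (by positivity) this.le 2
  have h2 : ∑ a ∈ I \ A, a ^ 2 ≤ ((I \ A).card : ℤ) * (n : ℤ) ^ 2 := by
    rw [← nsmul_eq_mul]
    apply Finset.sum_le_card_nsmul
    intro a ha
    rw [Finset.mem_sdiff, hIm] at ha
    have : |a| ≤ (n : ℤ) := abs_le.mpr ha.1
    rw [← sq_abs a]
    exact pow_le_pow_left₀ (abs_nonneg _) this 2
  have h3 := Finset.sum_inter_add_sum_sdiff A I (fun a : ℤ => a ^ 2)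
  have h4 := Finset.sum_inter_add_sum_sdiff I A (fun a : ℤ => a ^ 2)
  rw [Finset.inter_comm] at h4
  rw [hcard] at h1
  linarith

lemma sq_bound_of_dis {k : ℕ} {b : Fin k → ℕ} (h : Dis b) :
    (9 : ℤ) ^ k ≤ 8 * ∑ i, (b i : ℤ) ^ 2 + 1 := by
  classical
  set f : (Fin k → Fin 3) → ℤ := fun c => 0 + ∑ i, (((c i : ℕ) : ℤ) - 1) * (b i : ℤ) with hf
  have hinj : Function.Injective f := by
    intro c c' hcc
    have := h (fun i => ((c i : ℕ) : ℤ) - ((c' i : ℕ) : ℤ)) (by
      intro i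
      have h1 := (c i).isLt
      have h2 := (c' i).isLt
      rw [abs_le]
      constructor <;> omega) (by
      have e : ∑ i, (((c i : ℕ) : ℤ) - ((c' i : ℕ) : ℤ)) * (b i : ℤ) = f c - f c' := by
        simp only [hf, zero_add]
        rw [← Finset.sum_sub_distrib]
        exact Finset.sum_congr rfl (fun i _ => by ring)
      rw [e, hcc, sub_self])
    funext i
    have h3 := this i
    apply Fin.ext
    omega
  set A : Finset ℤ := Finset.univ.image f with hA
  have hodd : ∃ n : ℕ, 3 ^ k = 2 * n + 1 := by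
    have : Odd (3 ^ k) := Odd.pow (by decide)
    exact this
  obtain ⟨n, hn⟩ := hodd
  have hAc : A.card = 2 * n + 1 := by
    rw [hA, Finset.card_image_of_injective _ hinj, ← hn]
    simp
  have h1 := sum_sq_ge n A hAc
  have h2 : ∑ a ∈ A, a ^ 2 = ∑ c, (f c) ^ 2 := by
    rw [hA, Finset.sum_image (fun a _ b _ hab => hinj hab)]
  have h3 := second_moment k b 0
  rw [h2] at h1
  have h4 : 3 * ∑ c, (f c) ^ 2 = 3 ^ k * (3 * (0 : ℤ) ^ 2 + 2 * ∑ i, (b i : ℤ) ^ 2) := h3
  rw [h4] at h1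
  have hnz : (3 : ℤ) ^ k = 2 * n + 1 := by exact_mod_cast hn
  have h9 : (9 : ℤ) ^ k = (2 * n + 1) ^ 2 := by
    rw [← hnz, ← pow_mul, mul_comm k 2, pow_mul]; norm_num
  rw [hnz] at h1
  have hpos : (0 : ℤ) < 2 * n + 1 := by positivity
  have h5 : (n : ℤ) * (n + 1) ≤ 2 * ∑ i, (b i : ℤ) ^ 2 := by
    by_contra hlt
    push Not at hlt
    have := mul_lt_mul_of_pos_left hlt hpos
    nlinarith
  rw [h9]
  nlinarith


/-! ### the result -/

lemma one_mem : 1 ∈ lastTerms 3 1 :=
  mem_lastTerms_of_chk 1 [] (by decide +kernel) (by decide) (by decide)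

lemma lastTerms_nonempty (k : ℕ) : (lastTerms 3 (k + 1)).Nonempty := by
  induction k with
  | zero => exact ⟨1, one_mem⟩
  | succ k ih =>
    obtain ⟨m, hm⟩ := ih
    exact ⟨3 * m, lastTerms_succ hm⟩

lemma g_isLeast (k : ℕ) (hk : 1 ≤ k) : IsLeast (lastTerms 3 k) (g 3 k) := by
  obtain ⟨k, rfl⟩ : ∃ j, k = j + 1 := ⟨k - 1, by omega⟩
  exact ⟨Nat.sInf_mem (lastTerms_nonempty k), fun m hm => Nat.sInf_le hm⟩

lemma g_succ_le (k : ℕ) (hk : 1 ≤ k) : g 3 (k + 1) ≤ 3 * g 3 k :=
  (g_isLeast (k + 1) (by omega)).2 (lastTerms_succ (g_isLeast k hk).1)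

lemma g_add_le (k : ℕ) (hk : 1 ≤ k) (j : ℕ) : g 3 (k + j) ≤ g 3 k * 3 ^ j := by
  induction j with
  | zero => simp
  | succ j ih =>
    have := g_succ_le (k + j) (by omega)
    calc g 3 (k + (j + 1)) ≤ 3 * g 3 (k + j) := this
      _ ≤ 3 * (g 3 k * 3 ^ j) := by omega
      _ = g 3 k * 3 ^ (j + 1) := by ring

lemma g_eq {k m : ℕ} (h : m ∈ lastTerms 3 k) (h' : noext k m 1 0 = true) : g 3 k = m :=
  le_antisymm (Nat.sInf_le h) (lower_of_noext h' (Nat.sInf_mem ⟨m, h⟩))

lemma mem3 : 8 ∈ lastTerms 3 3 :=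
  mem_lastTerms_of_chk 8 [7, 5] (by decide +kernel) (by decide) (by decide)

lemma mem4 : 22 ∈ lastTerms 3 4 :=
  mem_lastTerms_of_chk 22 [21, 19, 14] (by decide +kernel) (by decide) (by decide)

lemma mem5 : 60 ∈ lastTerms 3 5 :=
  mem_lastTerms_of_chk 60 [59, 57, 52, 38] (by decide +kernel) (by decide) (by decide)

lemma mem15 : 2664433 ∈ lastTerms 3 15 :=
  mem_lastTerms_of_chk 2664433
    [2664432, 2664430, 2664425, 2664411, 2664373, 2664264, 2663956, 2663046, 2660392, 2652648, 2629724, 2562170, 2363072, 1768432]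
    (by decide +kernel) (by simp) (by simp)

lemma limit_statement (h15 : g 3 15 ≤ 2664433) :
    ∃ L : ℝ, Filter.Tendsto (fun k : ℕ => (g 3 (k + 1) : ℝ) / 3 ^ k) Filter.atTop (nhds L) ∧
      L ≤ 2664433 / 3 ^ 14 ∧
      (0 < L ↔ ∃ c : ℝ, ∀ k : ℕ, 1 ≤ k → (3 : ℝ) ^ ((k : ℝ) - c) < g 3 k) := by
  set a : ℕ → ℝ := fun k => (g 3 (k + 1) : ℝ) / 3 ^ k with ha
  have hanti : Antitone a := by
    apply antitone_nat_of_succ_le
    intro k
    simp only [ha]
    have h1 : (g 3 (k + 1 + 1) : ℝ) ≤ 3 * g 3 (k + 1) := by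
      exact_mod_cast g_succ_le (k + 1) (by omega)
    rw [div_le_div_iff₀ (by positivity) (by positivity), pow_succ]
    have h3 : (0 : ℝ) < 3 ^ k := by positivity
    nlinarith
  have hbdd : BddBelow (Set.range a) := ⟨0, by
    rintro _ ⟨k, rfl⟩
    simp only [ha]
    positivity⟩
  refine ⟨⨅ k, a k, tendsto_atTop_ciInf hanti hbdd, ?_, ?_, ?_⟩
  · refine (ciInf_le hbdd 14).trans ?_
    simp only [ha]
    have : (g 3 (14 + 1) : ℝ) ≤ 2664433 := by exact_mod_cast h15
    gcongr
  · intro hL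
    obtain ⟨n, hn⟩ := exists_pow_lt_of_lt_one (show (0 : ℝ) < (⨅ k, a k) / 3 by positivity)
      (show (1 / 3 : ℝ) < 1 by norm_num)
    refine ⟨n, fun k hk => ?_⟩
    obtain ⟨j, rfl⟩ : ∃ j, k = j + 1 := ⟨k - 1, by omega⟩
    have h1 : (⨅ k, a k) ≤ a j := ciInf_le hbdd j
    simp only [ha] at h1
    rw [le_div_iff₀ (by positivity)] at h1
    rw [Real.rpow_sub (by norm_num), Real.rpow_natCast, Real.rpow_natCast]
    rw [one_div, inv_pow] at hn
    rw [div_eq_mul_inv, pow_succ]
    have h3 : (0 : ℝ) < 3 ^ j := by positivity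
    have h4 : (3 : ℝ) ^ j * 3 * (3 ^ n)⁻¹ < 3 ^ j * 3 * ((⨅ k, a k) / 3) :=
      mul_lt_mul_of_pos_left hn (by positivity)
    have h5 : (3 : ℝ) ^ j * 3 * ((⨅ k, a k) / 3) = (⨅ k, a k) * 3 ^ j := by ring
    rw [h5] at h4
    exact lt_of_lt_of_le h4 h1
  · rintro ⟨c, hc⟩
    have h1 : (3 : ℝ) ^ (1 - c) ≤ ⨅ k, a k := by
      apply le_ciInf
      intro k
      simp only [ha]
      rw [le_div_iff₀ (by positivity)]
      have h2 := hc (k + 1) (by omega)
      have h3 : (3 : ℝ) ^ (1 - c) * 3 ^ k = (3 : ℝ) ^ (((k + 1 : ℕ) : ℝ) - c) := by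
        rw [← Real.rpow_natCast 3 k, ← Real.rpow_add (by norm_num)]
        congr 1
        push_cast
        ring
      rw [h3]
      exact h2.le
    exact lt_of_lt_of_le (Real.rpow_pos_of_pos (by norm_num) _) h1

/-- The conjecture `g_3(k) = 3^(k-1)` fails for every `k ≥ 3`; exact values for `k ≤ 4`;
submultiplicativity; an explicit upper bound `0.5571 * 3^(k-1)` for `k ≥ 15`; and the sharp
second moment lower bound. -/
theorem result :
    (∀ k, 1 ≤ k → IsLeast (lastTerms 3 k) (g 3 k)) ∧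
    (g 3 1 = 1 ∧ g 3 2 = 3 ∧ g 3 3 = 8 ∧ g 3 4 = 22 ∧ g 3 5 ≤ 60) ∧
    (∀ k, 3 ≤ k → g 3 k < 3 ^ (k - 1)) ∧
    (∀ k, 1 ≤ k → g 3 (k + 1) ≤ 3 * g 3 k) ∧
    (∀ k, 15 ≤ k → g 3 k ≤ 2664433 * 3 ^ (k - 15)) ∧
    (∀ (k : ℕ) (b : Fin k → ℕ), Admissible 3 b → 9 ^ k ≤ 8 * ∑ i, (b i) ^ 2 + 1) ∧
    (∀ k, 1 ≤ k → 9 ^ k ≤ 8 * k * (g 3 k) ^ 2 + 1) ∧
    (∃ L : ℝ, Filter.Tendsto (fun k : ℕ => (g 3 (k + 1) : ℝ) / 3 ^ k) Filter.atTop (nhds L) ∧
      L ≤ 2664433 / 3 ^ 14 ∧
      (0 < L ↔ ∃ c : ℝ, ∀ k : ℕ, 1 ≤ k → (3 : ℝ) ^ ((k : ℝ) - c) < g 3 k)) := by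
  have hg3 : g 3 3 = 8 := g_eq mem3 (by decide +kernel)
  have hsq : ∀ (k : ℕ) (b : Fin k → ℕ), Admissible 3 b → 9 ^ k ≤ 8 * ∑ i, (b i) ^ 2 + 1 := by
    intro k b hb
    have := sq_bound_of_dis (dis_of_noAP hb.1 hb.2.1 hb.2.2)
    exact_mod_cast this
  refine ⟨g_isLeast, ⟨g_eq one_mem (by decide +kernel),
    g_eq (lastTerms_succ one_mem) (by decide +kernel), hg3,
    g_eq mem4 (by decide +kernel), Nat.sInf_le mem5⟩, ?_, g_succ_le, ?_, hsq, ?_,
    limit_statement (Nat.sInf_le mem15)⟩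
  · intro k hk
    obtain ⟨j, rfl⟩ : ∃ j, k = 3 + j := ⟨k - 3, by omega⟩
    have h1 := g_add_le 3 (by norm_num) j
    rw [hg3] at h1
    have h2 : 3 ^ (3 + j - 1) = 9 * 3 ^ j := by
      rw [show 3 + j - 1 = 2 + j by omega, pow_add]; norm_num
    rw [h2]
    have h3 : 0 < 3 ^ j := by positivity
    omega
  · intro k hk
    obtain ⟨j, rfl⟩ : ∃ j, k = 15 + j := ⟨k - 15, by omega⟩
    have h1 := g_add_le 15 (by norm_num) j
    have h2 : g 3 15 ≤ 2664433 := Nat.sInf_le mem15
    rw [show 15 + j - 15 = j by omega]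
    exact h1.trans (Nat.mul_le_mul_right _ h2)
  · intro k hk
    obtain ⟨b, hb, i, hi, hbi⟩ := (g_isLeast k hk).1
    have h1 := hsq k b hb
    have h2 : ∑ j, (b j) ^ 2 ≤ k * (g 3 k) ^ 2 := by
      calc ∑ j, (b j) ^ 2 ≤ ∑ _j : Fin k, (g 3 k) ^ 2 := by
            refine Finset.sum_le_sum (fun j _ => Nat.pow_le_pow_left ?_ 2)
            rw [← hbi]
            exact hb.1.monotone (by rw [Fin.le_def]; omega)
        _ = k * (g 3 k) ^ 2 := by simp
    calc 9 ^ k ≤ 8 * ∑ j, (b j) ^ 2 + 1 := h1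
      _ ≤ 8 * (k * (g 3 k) ^ 2) + 1 := by omega
      _ = 8 * k * (g 3 k) ^ 2 + 1 := by ring

end Pool.Agent.Results.MP_727445_co.BelowPowers
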